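import Mathlib

/-!
# Numerical estimates for the iterated logarithm
-/

set_option autoImplicit false

namespace Pool.Agent.TH104.BF

/-- `x ↦ log (1 + x)` -/
noncomputable def slog (x : ℝ) : ℝ := Real.log (1 + x)

lemma slog_nonneg {x : ℝ} (hx : 0 ≤ x) : 0 ≤ slog x := Real.log_nonneg (by linarith)

lemma slog_le {x : ℝ} (hx : 0 ≤ x) : slog x ≤ x := by
  have h := Real.log_le_sub_one_of_pos (show (0 : ℝ) < 1 + x by linarith)
  unfold slog
  linarith

lemma slog_mono {x y : ℝ} (hx : 0 ≤ x) (hxy : x ≤ y) : slog x ≤ slog y :=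
  Real.log_le_log (by linarith) (by linarith)

lemma slog_add {x y : ℝ} (hx : 0 ≤ x) (hy : 0 ≤ y) : slog (x + y) ≤ slog x + slog y := by
  unfold slog
  rw [← Real.log_mul (by linarith) (by linarith)]
  refine Real.log_le_log (by linarith) ?_
  nlinarith [mul_nonneg hx hy]

lemma iter_nonneg (k : ℕ) {x : ℝ} (hx : 0 ≤ x) : 0 ≤ slog^[k] x := by
  induction k with
  | zero => simpa using hx
  | succ k ih => rw [Function.iterate_succ_apply']; exact slog_nonneg ih

lemma iter_mono (k : ℕ) {x y : ℝ} (hx : 0 ≤ x) (hxy : x ≤ y) : slog^[k] x ≤ slog^[k] y := by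
  induction k with
  | zero => simpa using hxy
  | succ k ih =>
    rw [Function.iterate_succ_apply', Function.iterate_succ_apply']
    exact slog_mono (iter_nonneg k hx) ih

lemma iter_add (k : ℕ) {A B : ℝ} (hA : 0 ≤ A) (hB : 0 ≤ B) :
    slog^[k] (A + B) ≤ A + slog^[k] B := by
  induction k with
  | zero => simp
  | succ k ih =>
    rw [Function.iterate_succ_apply', Function.iterate_succ_apply']
    refine (slog_mono (iter_nonneg k (by linarith)) ih).trans ?_
    refine (slog_add hA (iter_nonneg k hB)).trans ?_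
    have := slog_le hA
    linarith

/-- two logarithms of the number of points of the quotient -/
lemma two_logs (r t e : ℕ) (hr : 1 ≤ r) (ht : 1 ≤ t) (he : 1 ≤ e) :
    slog (slog ((r * e ^ (r * t ^ 2) : ℕ) : ℝ)) ≤
      (2 * (1 + Real.log t) + Real.log r) + slog (Real.log e) := by
  have hrR : (1 : ℝ) ≤ r := by exact_mod_cast hr
  have htR : (1 : ℝ) ≤ t := by exact_mod_cast ht
  have heR : (1 : ℝ) ≤ e := by exact_mod_cast he
  have hL : 0 ≤ Real.log (e : ℝ) := Real.log_nonneg heR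
  have hpow : (1 : ℝ) ≤ (e : ℝ) ^ (r * t ^ 2) := one_le_pow₀ heR
  have hn : (1 : ℝ) ≤ r * (e : ℝ) ^ (r * t ^ 2) := by nlinarith
  have h1 : slog ((r * e ^ (r * t ^ 2) : ℕ) : ℝ) ≤
      Real.log 2 + Real.log r + (r * t ^ 2) * Real.log e := by
    unfold slog
    push_cast
    have h2 : Real.log (2 * (r * (e : ℝ) ^ (r * t ^ 2))) =
        Real.log 2 + Real.log r + (r * t ^ 2) * Real.log e := by
      rw [Real.log_mul (by norm_num) (by positivity), Real.log_mul (by positivity) (by positivity),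
        Real.log_pow]
      push_cast
      ring
    rw [← h2]
    refine Real.log_le_log (by positivity) ?_
    linarith
  have h0 : 0 ≤ slog ((r * e ^ (r * t ^ 2) : ℕ) : ℝ) := slog_nonneg (Nat.cast_nonneg _)
  have h3 : Real.log 2 + Real.log r + (r * t ^ 2) * Real.log e ≤
      3 * (r * t ^ 2) * (1 + Real.log e) - 1 := by
    have h4 : Real.log (2 : ℝ) ≤ 1 := by
      have := Real.log_le_sub_one_of_pos (show (0 : ℝ) < 2 by norm_num)
      linarith
    have h5 : Real.log (r : ℝ) ≤ r - 1 := Real.log_le_sub_one_of_pos (by linarith)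
    have h6 : (r : ℝ) ≤ r * t ^ 2 := by
      have : (1 : ℝ) ≤ (t : ℝ) ^ 2 := one_le_pow₀ htR
      nlinarith
    have h7 : 0 ≤ (r : ℝ) * t ^ 2 * Real.log e := by positivity
    nlinarith
  have h8 : slog (slog ((r * e ^ (r * t ^ 2) : ℕ) : ℝ)) ≤
      Real.log (3 * (r * t ^ 2) * (1 + Real.log e)) := by
    unfold slog at h0 h1 ⊢
    refine Real.log_le_log (by linarith) ?_
    linarith
  refine h8.trans ?_
  have ht0 : (0 : ℝ) < t := by linarith
  have hr0 : (0 : ℝ) < r := by linarith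
  rw [Real.log_mul (by positivity) (by linarith), Real.log_mul (by norm_num) (by positivity),
    Real.log_mul (by positivity) (by positivity), Real.log_pow]
  have h9 : Real.log (3 : ℝ) ≤ 2 := by
    have := Real.log_le_sub_one_of_pos (show (0 : ℝ) < 3 by norm_num)
    linarith
  unfold slog
  push_cast
  linarith

/-- `(1 + log t)^3 ≤ 216 √t` -/
lemma cube_le (t : ℝ) (ht : 1 ≤ t) : (1 + Real.log t) ^ 3 ≤ 216 * Real.sqrt t := by
  have ht0 : 0 < t := by linarith
  have hl : 0 ≤ Real.log t := Real.log_nonneg ht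
  have h1 : 1 + Real.log t ≤ 6 * Real.exp (Real.log t / 6) := by
    have := Real.add_one_le_exp (Real.log t / 6)
    linarith
  calc (1 + Real.log t) ^ 3 ≤ (6 * Real.exp (Real.log t / 6)) ^ 3 :=
        pow_le_pow_left₀ (by linarith) h1 3
    _ = 216 * Real.exp (3 * (Real.log t / 6)) := by
        rw [mul_pow, ← Real.exp_nat_mul]; norm_num
    _ = 216 * Real.sqrt t := by
        rw [Real.sqrt_eq_rpow, Real.rpow_def_of_pos ht0]
        congr 2
        ring

lemma sqrt_le_self {x : ℝ} (hx : 1 ≤ x) : Real.sqrt x ≤ x := by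
  rw [Real.sqrt_le_left (by linarith)]
  nlinarith

lemma sqrt_add_le {x y : ℝ} (hx : 0 ≤ x) (hy : 0 ≤ y) :
    Real.sqrt (x + y) ≤ Real.sqrt x + Real.sqrt y := by
  rw [Real.sqrt_le_left (by positivity)]
  nlinarith [Real.sq_sqrt hx, Real.sq_sqrt hy, mul_nonneg (Real.sqrt_nonneg x) (Real.sqrt_nonneg y)]

/-- the final estimate -/
lemma final (C : ℝ) (r t e k : ℕ) (hr : 1 ≤ r) (ht : 1 ≤ t) (he : 1 ≤ e) (hk : 1 ≤ k) (n : ℝ)
    (hn0 : 0 ≤ n) (hn : n ≤ ((r * e ^ (r * t ^ 2) : ℕ) : ℝ)) :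
    C * k * (Real.sqrt t + (1 + Real.log t) ^ 2 * Real.sqrt (Real.log ((r * t : ℕ) : ℝ)))
      + C * (Real.sqrt t + (1 + Real.log t) ^ (3 / 2 : ℝ) * Real.sqrt (slog^[k + 1] n)) ≤
    1000 * |C| * (k * (Real.sqrt t + (1 + Real.log t) ^ 2 * Real.sqrt (Real.log r)) +
      (1 + Real.log t) ^ (3 / 2 : ℝ) * Real.sqrt (slog^[k] (Real.log e))) := by
  have hrR : (1 : ℝ) ≤ r := by exact_mod_cast hr
  have htR : (1 : ℝ) ≤ t := by exact_mod_cast ht
  have heR : (1 : ℝ) ≤ e := by exact_mod_cast he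
  have hkR : (1 : ℝ) ≤ k := by exact_mod_cast hk
  have hlt : 0 ≤ Real.log (t : ℝ) := Real.log_nonneg htR
  have hlr : 0 ≤ Real.log (r : ℝ) := Real.log_nonneg hrR
  have hle : 0 ≤ Real.log (e : ℝ) := Real.log_nonneg heR
  have hcube := cube_le (t : ℝ) htR
  set ℓ : ℝ := 1 + Real.log (t : ℝ) with hℓ
  have hℓ1 : 1 ≤ ℓ := by linarith
  set w : ℝ := slog^[k] (Real.log e) with hw
  have hw0 : 0 ≤ w := iter_nonneg k hle
  -- the iterated logarithm
  have hz : slog^[k + 1] n ≤ (2 * ℓ + Real.log r) + w := by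
    obtain ⟨j, rfl⟩ : ∃ j, k = j + 1 := ⟨k - 1, by omega⟩
    refine (iter_mono _ hn0 hn).trans ?_
    have h1 : slog^[j + 1 + 1] ((r * e ^ (r * t ^ 2) : ℕ) : ℝ) =
        slog^[j] (slog (slog ((r * e ^ (r * t ^ 2) : ℕ) : ℝ))) := by
      rw [Function.iterate_succ_apply, Function.iterate_succ_apply]
    rw [h1]
    refine (iter_mono j (slog_nonneg (slog_nonneg (Nat.cast_nonneg _))) (two_logs r t e hr ht he)).trans ?_
    refine (iter_add j (by positivity) (slog_nonneg hle)).trans ?_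
    rw [hw, Function.iterate_succ_apply]
  have hz0 : 0 ≤ slog^[k + 1] n := iter_nonneg _ hn0
  have hs : Real.log ((r * t : ℕ) : ℝ) = Real.log r + Real.log t := by
    push_cast
    exact Real.log_mul (by linarith) (by linarith)
  have hsq1 : Real.sqrt (Real.log ((r * t : ℕ) : ℝ)) ≤ Real.sqrt (Real.log r) + ℓ := by
    rw [hs]
    refine (sqrt_add_le hlr hlt).trans ?_
    have h1 : Real.sqrt (Real.log t) ≤ Real.sqrt ℓ := Real.sqrt_le_sqrt (by linarith)
    have h2 := sqrt_le_self hℓ1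
    linarith
  have hsq2 : Real.sqrt (slog^[k + 1] n) ≤ 2 * ℓ + Real.sqrt (Real.log r) + Real.sqrt w := by
    refine (Real.sqrt_le_sqrt hz).trans ?_
    refine (sqrt_add_le (by linarith) hw0).trans ?_
    have h1 := sqrt_add_le (show 0 ≤ 2 * ℓ by linarith) hlr
    have h2 := sqrt_le_self (show 1 ≤ 2 * ℓ by linarith)
    linarith
  have hp0 : 0 ≤ ℓ ^ (3 / 2 : ℝ) := Real.rpow_nonneg (by linarith) _
  have hp : ℓ ^ (3 / 2 : ℝ) ≤ ℓ ^ 2 := by
    rw [← Real.rpow_natCast ℓ 2]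
    exact Real.rpow_le_rpow_of_exponent_le hℓ1 (by norm_num)
  set P : ℝ := ℓ ^ (3 / 2 : ℝ)
  set a : ℝ := Real.sqrt (Real.log r)
  set b : ℝ := Real.sqrt w
  set T : ℝ := Real.sqrt t
  have ha0 : 0 ≤ a := Real.sqrt_nonneg _
  have hb0 : 0 ≤ b := Real.sqrt_nonneg _
  have hT0 : 0 ≤ T := Real.sqrt_nonneg _
  have hC : C ≤ |C| := le_abs_self C
  have hC0 : 0 ≤ |C| := abs_nonneg C
  have e1 : T + ℓ ^ 2 * Real.sqrt (Real.log ((r * t : ℕ) : ℝ)) ≤ 217 * T + ℓ ^ 2 * a := by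
    have h1 : ℓ ^ 2 * Real.sqrt (Real.log ((r * t : ℕ) : ℝ)) ≤ ℓ ^ 2 * (a + ℓ) :=
      mul_le_mul_of_nonneg_left hsq1 (by positivity)
    nlinarith
  have e2 : T + P * Real.sqrt (slog^[k + 1] n) ≤ 433 * T + ℓ ^ 2 * a + P * b := by
    have h1 : P * Real.sqrt (slog^[k + 1] n) ≤ P * (2 * ℓ + a + b) :=
      mul_le_mul_of_nonneg_left hsq2 hp0
    have h2 : P * (2 * ℓ) ≤ ℓ ^ 2 * (2 * ℓ) := mul_le_mul_of_nonneg_right hp (by linarith)
    have h3 : P * a ≤ ℓ ^ 2 * a := mul_le_mul_of_nonneg_right hp ha0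
    nlinarith
  have e3 : 0 ≤ T + ℓ ^ 2 * Real.sqrt (Real.log ((r * t : ℕ) : ℝ)) := by positivity
  have e4 : 0 ≤ T + P * Real.sqrt (slog^[k + 1] n) := by positivity
  have e5 : 0 ≤ ℓ ^ 2 * a := by positivity
  have e6 : 0 ≤ P * b := by positivity
  have hk0 : (0 : ℝ) ≤ k := by linarith
  calc C * k * (T + ℓ ^ 2 * Real.sqrt (Real.log ((r * t : ℕ) : ℝ)))
        + C * (T + P * Real.sqrt (slog^[k + 1] n))
      ≤ |C| * k * (T + ℓ ^ 2 * Real.sqrt (Real.log ((r * t : ℕ) : ℝ)))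
        + |C| * (T + P * Real.sqrt (slog^[k + 1] n)) :=
        add_le_add (mul_le_mul_of_nonneg_right (mul_le_mul_of_nonneg_right hC hk0) e3)
          (mul_le_mul_of_nonneg_right hC e4)
    _ ≤ |C| * k * (217 * T + ℓ ^ 2 * a) + |C| * (433 * T + ℓ ^ 2 * a + P * b) :=
        add_le_add (mul_le_mul_of_nonneg_left e1 (by positivity))
          (mul_le_mul_of_nonneg_left e2 hC0)
    _ = |C| * (k * (217 * T + ℓ ^ 2 * a) + 1 * (433 * T + ℓ ^ 2 * a) + P * b) := by ring
    _ ≤ |C| * (k * (217 * T + ℓ ^ 2 * a) + k * (433 * T + ℓ ^ 2 * a) + P * b) := by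
        refine mul_le_mul_of_nonneg_left ?_ hC0
        have := mul_le_mul_of_nonneg_right hkR (show 0 ≤ 433 * T + ℓ ^ 2 * a by positivity)
        linarith
    _ ≤ |C| * (1000 * (k * (T + ℓ ^ 2 * a) + P * b)) := by
        refine mul_le_mul_of_nonneg_left ?_ hC0
        have h1 : 0 ≤ k * T := by positivity
        have h2 : 0 ≤ k * (ℓ ^ 2 * a) := by positivity
        nlinarith
    _ = _ := by ring

end Pool.Agent.TH104.BF
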