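import Mathlib

/-!
# Set systems with a free action of a finite group: reduction to a quotient
-/

set_option autoImplicit false

namespace Pool.Agent.TH104.BF

open Finset MulAction

/-- all set systems of maximum degree at most `t`, with sets of at most `s` elements, on at most `n`
points have discrepancy at most `B` -/
def GoodSys (t s n : ℕ) (B : ℝ) : Prop :=
  ∀ (m k : ℕ) (S : Fin m → Finset (Fin k)), k ≤ n →
    (∀ x, (univ.filter fun i => x ∈ S i).card ≤ t) → (∀ i, (S i).card ≤ s) →
    ∃ χ : Fin k → ℤ, (∀ x, χ x = 1 ∨ χ x = -1) ∧ ∀ i, ((|∑ x ∈ S i, χ x| : ℤ) : ℝ) ≤ B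

lemma good_types {t s n : ℕ} {B : ℝ} (h : GoodSys t s n B) {M V : Type} [Fintype M] [Fintype V]
    (S : M → Finset V) (hV : Fintype.card V ≤ n) (hdeg : ∀ x, Nat.card {i : M // x ∈ S i} ≤ t)
    (hs : ∀ i, (S i).card ≤ s) :
    ∃ χ : V → ℤ, (∀ x, χ x = 1 ∨ χ x = -1) ∧ ∀ i, ((|∑ x ∈ S i, χ x| : ℤ) : ℝ) ≤ B := by
  classical
  let eM := Fintype.equivFin M
  let eV := Fintype.equivFin V
  obtain ⟨χ, h1, h2⟩ := h (Fintype.card M) (Fintype.card V)
    (fun i => (S (eM.symm i)).map eV.toEmbedding) hV (by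
      intro x
      refine le_trans (le_of_eq ?_) (hdeg (eV.symm x))
      rw [Nat.card_eq_fintype_card, Fintype.card_subtype]
      refine Finset.card_bij (fun i _ => eM.symm i) ?_ ?_ ?_
      · intro i hi
        rw [Finset.mem_filter] at hi ⊢
        refine ⟨Finset.mem_univ _, ?_⟩
        obtain ⟨y, hy, hyx⟩ := Finset.mem_map.mp hi.2
        rw [← hyx]
        simpa using hy
      · intro i _ j _ hij
        exact eM.symm.injective hij
      · intro i hi
        rw [Finset.mem_filter] at hi
        refine ⟨eM i, ?_, by simp⟩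
        rw [Finset.mem_filter]
        refine ⟨Finset.mem_univ _, ?_⟩
        rw [Finset.mem_map]
        exact ⟨eV.symm x, by simpa using hi.2, by simp⟩) (by
      intro i
      rw [Finset.card_map]
      exact hs _)
  refine ⟨fun x => χ (eV x), fun x => h1 _, fun i => ?_⟩
  have h3 := h2 (eM i)
  simp only [eM.symm_apply_apply] at h3
  rw [Finset.sum_map] at h3
  exact h3

variable {H : Type} [Group H] [Fintype H]

/-- number of points of the quotient -/
lemma card_quot {V : Type} [Fintype V] [MulAction H V] (N : Subgroup H) :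
    Nat.card (orbitRel.Quotient N V) ≤ Nat.card (orbitRel.Quotient H V) * N.index := by
  classical
  have h1 : Function.Surjective (fun p : orbitRel.Quotient H V × (H ⧸ N) =>
      (Quotient.mk (orbitRel N V) ((Quotient.out p.2)⁻¹ • Quotient.out p.1))) := by
    intro y
    induction y using Quotient.inductionOn with
    | h x =>
      have h1 : (orbitRel H V) (Quotient.out (Quotient.mk (orbitRel H V) x)) x := Quotient.mk_out x
      obtain ⟨a, ha⟩ := h1
      have ha' : a • x = Quotient.out (Quotient.mk (orbitRel H V) x) := ha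
      refine ⟨(Quotient.mk (orbitRel H V) x, (QuotientGroup.mk a : H ⧸ N)), ?_⟩
      simp only
      obtain ⟨n, hn⟩ := QuotientGroup.mk_out_eq_mul N a
      rw [hn, ← ha', mul_inv_rev, mul_smul, inv_smul_smul]
      exact Quotient.sound ⟨n⁻¹, rfl⟩
  have h2 := Nat.card_le_card_of_surjective _ h1
  rw [Nat.card_prod] at h2
  exact h2

/-- reduction along a subgroup which separates -/
theorem quot {M V : Type} [Fintype M] [Fintype V] [MulAction H M] [MulAction H V]
    (S : M → Finset V) (hinv : ∀ (a : H) (i : M) (x : V), a • x ∈ S (a • i) ↔ x ∈ S i)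
    (N : Subgroup H)
    (hN : ∀ (a : H) (i : M) (x : V), a ∈ N → x ∈ S i → x ∈ S (a • i) → a = 1)
    (t s : ℕ) (hdeg : ∀ x : V, Nat.card {i : M // x ∈ S i} ≤ t) (hs : ∀ i, (S i).card ≤ s) (B : ℝ)
    (hB : GoodSys t s (Nat.card (orbitRel.Quotient N V)) B) :
    ∃ χ : V → ℤ, (∀ x, χ x = 1 ∨ χ x = -1) ∧ ∀ i, ((|∑ x ∈ S i, χ x| : ℤ) : ℝ) ≤ B := by
  classical
  let _ : Fintype (orbitRel.Quotient N V) := Fintype.ofFinite _
  let _ : Fintype (orbitRel.Quotient N M) := Fintype.ofFinite _
  let pV : V → orbitRel.Quotient N V := fun x => Quotient.mk (orbitRel N V) x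
  let pM : M → orbitRel.Quotient N M := fun i => Quotient.mk (orbitRel N M) i
  have hpV : ∀ x y, pV x = pV y ↔ ∃ a ∈ N, a • y = x := by
    intro x y
    constructor
    · intro h
      have h1 : (orbitRel N V) x y := Quotient.exact h
      obtain ⟨a, ha⟩ := h1
      exact ⟨a.1, a.2, ha⟩
    · rintro ⟨a, ha, h⟩
      exact Quotient.sound ⟨⟨a, ha⟩, h⟩
  have hpM : ∀ x y, pM x = pM y ↔ ∃ a ∈ N, a • y = x := by
    intro x y
    constructor
    · intro h
      have h1 : (orbitRel N M) x y := Quotient.exact h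
      obtain ⟨a, ha⟩ := h1
      exact ⟨a.1, a.2, ha⟩
    · rintro ⟨a, ha, h⟩
      exact Quotient.sound ⟨⟨a, ha⟩, h⟩
  have hout : ∀ q : orbitRel.Quotient N M, pM (Quotient.out q) = q := fun q => Quotient.out_eq q
  have houtV : ∀ q : orbitRel.Quotient N V, pV (Quotient.out q) = q := fun q => Quotient.out_eq q
  have hinj : ∀ i, Set.InjOn pV (S i) := by
    intro i x hx y hy h
    obtain ⟨a, ha, hax⟩ := (hpV x y).mp h
    have h1 : y ∈ S (a⁻¹ • i) := by
      rw [← hinv a, hax, smul_inv_smul]
      exact hx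
    have h2 := hN a⁻¹ i y (N.inv_mem ha) hy h1
    have h3 : a = 1 := inv_eq_one.mp h2
    rw [← hax, h3, one_smul]
  obtain ⟨χ, h1, h2⟩ := good_types hB (fun q : orbitRel.Quotient N M => (S (Quotient.out q)).image pV)
    (by rw [Nat.card_eq_fintype_card]) (by
      intro q
      refine le_trans ?_ (hdeg (Quotient.out q))
      have hsub : ∀ i : {i : orbitRel.Quotient N M // q ∈ (S (Quotient.out i)).image pV},
          ∃ i' : {i : M // Quotient.out q ∈ S i}, pM i'.1 = i.1 := by
        rintro ⟨i, hi⟩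
        obtain ⟨x, hx, hxq⟩ := Finset.mem_image.mp hi
        have h3 : pV (Quotient.out q) = pV x := by rw [houtV, hxq]
        obtain ⟨a, ha, hax⟩ := (hpV _ _).mp h3
        refine ⟨⟨a • Quotient.out i, ?_⟩, ?_⟩
        · rw [← hax, hinv]; exact hx
        · change pM (a • Quotient.out i) = i
          rw [← hout i]
          rw [hpM]
          exact ⟨a, ha, by rw [hout i]⟩
      choose g hg using hsub
      have hginj : Function.Injective g := by
        intro i j hij
        apply Subtype.ext
        rw [← hg i, ← hg j, hij]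
      exact Nat.card_le_card_of_injective g hginj) (fun q => Finset.card_image_le.trans (hs _))
  refine ⟨fun x => χ (pV x), fun x => h1 _, fun i => ?_⟩
  have h3 := h2 (pM i)
  obtain ⟨a, ha, hai⟩ := (hpM i (Quotient.out (pM i))).mp (by rw [hout])
  have h4 : ∑ x ∈ S i, χ (pV x) = ∑ x ∈ (S (Quotient.out (pM i))).image pV, χ x := by
    rw [Finset.sum_image (fun x hx y hy h => hinj _ hx hy h)]
    symm
    refine Finset.sum_bij (fun x _ => a • x) ?_ ?_ ?_ ?_
    · intro x hx
      rw [← hai, hinv]; exact hx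
    · intro x _ y _ h
      exact smul_left_cancel a h
    · intro y hy
      refine ⟨a⁻¹ • y, ?_, by rw [smul_inv_smul]⟩
      rw [← hinv a, smul_inv_smul, hai]
      exact hy
    · intro x _
      congr 1
      exact ((hpV (a • x) x).mpr ⟨a, ha, rfl⟩).symm
  simp only
  rw [h4]
  exact h3

/-- the sets are small -/
lemma size_le {M V : Type} [Fintype M] [Fintype V] [MulAction H M] [MulAction H V]
    (S : M → Finset V) (hM : ∀ (a : H) (i : M), a • i = i → a = 1)
    (hinv : ∀ (a : H) (i : M) (x : V), a • x ∈ S (a • i) ↔ x ∈ S i)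
    (t : ℕ) (hdeg : ∀ x : V, Nat.card {i : M // x ∈ S i} ≤ t) (i : M) :
    (S i).card ≤ Nat.card (orbitRel.Quotient H V) * t := by
  classical
  let _ : Fintype (orbitRel.Quotient H V) := Fintype.ofFinite _
  let pV : V → orbitRel.Quotient H V := fun x => Quotient.mk (orbitRel H V) x
  rw [Nat.card_eq_fintype_card, ← Finset.card_univ]
  refine Finset.card_le_mul_card_image_of_maps_to (f := pV) (fun x _ => Finset.mem_univ _) t ?_
    |>.trans (le_of_eq (Nat.mul_comm _ _))
  intro o _
  -- the points of `S i` in the orbit `o`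
  have hrep : ∀ x : {x : V // x ∈ (S i).filter fun x => pV x = o}, ∃ a : H, a • x.1 = Quotient.out o := by
    rintro ⟨x, hx⟩
    have hx2 := (Finset.mem_filter.1 hx).2
    have h1 : (orbitRel H V) (Quotient.out (Quotient.mk (orbitRel H V) x)) x := Quotient.mk_out x
    obtain ⟨a, ha⟩ := h1
    refine ⟨a, ?_⟩
    have h2 : Quotient.mk (orbitRel H V) x = o := hx2
    exact ha.trans (congrArg Quotient.out h2)
  choose g hg using hrep
  have hmap : ∀ x : {x : V // x ∈ (S i).filter fun x => pV x = o}, Quotient.out o ∈ S (g x • i) := by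
    intro x
    rw [← hg x, hinv]
    exact (Finset.mem_filter.1 x.2).1
  have hinj : Function.Injective (fun x : {x : V // x ∈ (S i).filter fun x => pV x = o} =>
      (⟨g x • i, hmap x⟩ : {j : M // Quotient.out o ∈ S j})) := by
    intro x y hxy
    have h1 : g x • i = g y • i := congrArg Subtype.val hxy
    have h2 : ((g y)⁻¹ * g x) • i = i := by rw [mul_smul, h1, inv_smul_smul]
    have h3 := hM _ _ h2
    have h4 : g y = g x := inv_mul_eq_one.mp h3
    apply Subtype.ext
    have h5 := hg x
    rw [← hg y, h4] at h5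
    exact smul_left_cancel _ h5
  have h6 := Nat.card_le_card_of_injective _ hinj
  have h7 : Nat.card {x : V // x ∈ (S i).filter fun x => pV x = o} =
      ((S i).filter fun x => pV x = o).card := by
    rw [Nat.card_eq_fintype_card, Fintype.card_coe]
  rw [← h7]
  exact h6.trans (hdeg _)

/-- a separating normal subgroup of small index -/
lemma exists_normal (e : ℕ) (he : 1 ≤ e)
    {M V : Type}
    [Fintype M] [Fintype V] [MulAction H M] [MulAction H V] (S : M → Finset V)
    (hres : ∀ a : H, a ≠ 1 → (∃ (i : M) (x : V), x ∈ S i ∧ x ∈ S (a • i)) →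
      ∃ N : Subgroup H, N.Normal ∧ N.index ≤ e ∧ a ∉ N)
    (hM : ∀ (a : H) (i : M), a • i = i → a = 1)
    (hinv : ∀ (a : H) (i : M) (x : V), a • x ∈ S (a • i) ↔ x ∈ S i)
    (t : ℕ) (hdeg : ∀ x : V, Nat.card {i : M // x ∈ S i} ≤ t) :
    ∃ N : Subgroup H, N.index ≤ e ^ (Nat.card (orbitRel.Quotient H V) * t ^ 2) ∧
      ∀ (a : H) (i : M) (x : V), a ∈ N → x ∈ S i → x ∈ S (a • i) → a = 1 := by
  classical
  let _ : Fintype (orbitRel.Quotient H V) := Fintype.ofFinite _
  set r := Nat.card (orbitRel.Quotient H V) with hr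
  have hrF : Fintype.card (orbitRel.Quotient H V) = r := by rw [hr, Nat.card_eq_fintype_card]
  -- pairs of sets through the representatives
  let T := Σ o : orbitRel.Quotient H V, {i : M // Quotient.out o ∈ S i} × {i : M // Quotient.out o ∈ S i}
  have hT : Fintype.card T ≤ r * t ^ 2 := by
    simp only [T, Fintype.card_sigma, Fintype.card_prod]
    calc ∑ o : orbitRel.Quotient H V, Fintype.card {i : M // Quotient.out o ∈ S i} *
          Fintype.card {i : M // Quotient.out o ∈ S i}
        ≤ ∑ _o : orbitRel.Quotient H V, t * t :=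
          Finset.sum_le_sum fun o _ => by
            have := hdeg (Quotient.out o)
            rw [Nat.card_eq_fintype_card] at this
            exact Nat.mul_le_mul this this
      _ = r * t ^ 2 := by
          rw [Finset.sum_const, Finset.card_univ, hrF, smul_eq_mul]; ring
  -- for each pair at most one element of `H` moves the first set to the second one
  have hsub : ∀ τ : T, ∃ N : Subgroup H, N.Normal ∧ N.index ≤ e ∧
      ∀ a : H, a • τ.2.1.1 = τ.2.2.1 → a ∈ N → a = 1 := by
    intro τ
    by_cases h : ∃ a : H, a • τ.2.1.1 = τ.2.2.1 ∧ a ≠ 1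
    · obtain ⟨a, ha, ha1⟩ := h
      obtain ⟨N, hN1, hN2, hN3⟩ := hres a ha1 ⟨τ.2.1.1, Quotient.out τ.1, τ.2.1.2, by
        rw [ha]; exact τ.2.2.2⟩
      refine ⟨N, hN1, hN2, fun b hb hbN => ?_⟩
      have h1 : (b⁻¹ * a) • τ.2.1.1 = τ.2.1.1 := by rw [mul_smul, ha, ← hb, inv_smul_smul]
      have h2 : b = a := inv_mul_eq_one.mp (hM _ _ h1)
      exact absurd (h2 ▸ hbN) hN3
    · push Not at h
      refine ⟨⊤, inferInstance, ?_, fun a ha _ => h a ha⟩
      rw [Subgroup.index_top]
      exact he
  choose N hN1 hN2 hN3 using hsub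
  refine ⟨⨅ τ, N τ, ?_, ?_⟩
  · calc (⨅ τ, N τ).index ≤ ∏ τ, (N τ).index := Subgroup.index_iInf_le N
      _ ≤ ∏ _τ : T, e := Finset.prod_le_prod' fun τ _ => hN2 τ
      _ = e ^ Fintype.card T := by rw [Finset.prod_const, Finset.card_univ]
      _ ≤ _ := Nat.pow_le_pow_right he hT
  · intro a i x ha hx hx'
    have h3 : (orbitRel H V) (Quotient.out (Quotient.mk (orbitRel H V) x)) x := Quotient.mk_out x
    obtain ⟨h, hh⟩ := h3
    have hh' : h • x = Quotient.out (Quotient.mk (orbitRel H V) x) := hh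
    have g1 : Quotient.out (Quotient.mk (orbitRel H V) x) ∈ S (h • i) := by
      rw [← hh', hinv]; exact hx
    have g2 : Quotient.out (Quotient.mk (orbitRel H V) x) ∈ S ((h * a * h⁻¹) • (h • i)) := by
      rw [← mul_smul, inv_mul_cancel_right, mul_smul, ← hh', hinv]
      exact hx'
    have h4 := hN3 (⟨Quotient.mk (orbitRel H V) x, ⟨h • i, g1⟩, ⟨(h * a * h⁻¹) • (h • i), g2⟩⟩ : T)
      (h * a * h⁻¹) rfl (by
        have := hN1 (⟨Quotient.mk (orbitRel H V) x, ⟨h • i, g1⟩, ⟨(h * a * h⁻¹) • (h • i), g2⟩⟩ : T)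
        exact this.conj_mem a ((Subgroup.mem_iInf.1 ha) _) h)
    have h5 : h * a * h⁻¹ = 1 := h4
    have h6 : a = 1 := by
      have := mul_inv_eq_one.mp h5
      exact mul_eq_left.mp this
    exact h6

end Pool.Agent.TH104.BF
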